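import Pool.Agent.Mg.F39fec4.Ge2a305

set_option autoImplicit false

namespace Pool.Agent.Results.MP_39fec4_gt.BallRange

open Pool.Agent.MP_39fec4_gt

theorem result : ∃ p₀ : ℝ, 26.26 < p₀ ∧ p₀ < 26.27 ∧
    3 * 4 ^ (1 / p₀) * Real.Gamma (1 + 1 / p₀) ^ 3 = Real.pi * Real.Gamma (1 + 3 / p₀) ∧
    ∀ p : ℝ, 2 < p → (p₀ ≤ p ↔ ∀ n : ℕ, 2 ≤ n → ∀ a : EuclideanSpace ℝ (Fin n), ‖a‖ = 1 →
      ((∀ b : EuclideanSpace ℝ (Fin n), ‖b‖ = 1 → sectionVol p b ≤ sectionVol p a) ↔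
        ∃ i j, i ≠ j ∧ |a i| = 1 / √2 ∧ |a j| = 1 / √2)) := Ball.main

end Pool.Agent.Results.MP_39fec4_gt.BallRange
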