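import Pool.Agent.Mg.F39fec4.G7a4da0

set_option autoImplicit false

namespace Pool.Agent.Results.MP_39fec4_gt.Maximisers

open Pool.Agent.MP_39fec4_gt

theorem result : ∀ n : ℕ, 2 ≤ n → ∃ pn : ℝ, 2 < pn ∧ pn < 26.27 ∧
    (3 ≤ n → ∀ p : ℝ, 2 < p → ∀ d e : EuclideanSpace ℝ (Fin n), ‖d‖ = 1 → ‖e‖ = 1 →
      (∀ j, |d j| = 1 / √n) → (∃ i j, i ≠ j ∧ |e i| = 1 / √2 ∧ |e j| = 1 / √2) →
      (sectionVol p d = sectionVol p e ↔ p = pn)) ∧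
    ∀ p : ℝ, 2 < p → ∀ a : EuclideanSpace ℝ (Fin n), ‖a‖ = 1 →
      ((∀ b : EuclideanSpace ℝ (Fin n), ‖b‖ = 1 → sectionVol p b ≤ sectionVol p a) ↔
        (p ≤ pn ∧ ∀ j, |a j| = 1 / √n) ∨
          (pn ≤ p ∧ ∃ i j, i ≠ j ∧ |a i| = 1 / √2 ∧ |a j| = 1 / √2)) := Full.main

end Pool.Agent.Results.MP_39fec4_gt.Maximisers
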